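import Pool.Agent.Lib.H56C.C3
import Pool.Agent.Lib.H98M.ME
import Pool.Agent.Lib.H66N.N1

/-!
# H56N, file S0: the start of the degree induction

Nonemptiness (degree `0`): `miss_free`, `hck_zero`, `hek_zero`, from the fact that maximal plane sets are
2-connected (`H56C.two_conn`).
-/

set_option autoImplicit false
set_option linter.unusedSectionVars false

namespace H56N

open Finset H98P H98Z H98M H36L H53P H30P H56C H66N

variable {V : Type*} [Fintype V] [DecidableEq V] {cross : Sym2 V → Sym2 V → Prop}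

theorem not_self (hG : Geo cross) (e : Sym2 V) : ¬ cross e e := by
  induction e with
  | _ a b => exact hG.adj a b b

/-- Some edge between the two parts of `W - v` misses the plane set `F`. -/
theorem miss_free (hG : Geo cross) {W : Finset V} {F : Finset (Sym2 V)} (hF : F ⊆ LW W)
    (hp : Plane cross F) (v : V) {A B : Finset V} (hA : A.Nonempty) (hB : B.Nonempty)
    (hAB : Disjoint A B) (hU : A ∪ B = W.erase v) : AcyN cross 0 (Miss cross (br A B) F) := by
  obtain ⟨a, ha, b, hb, h⟩ := join_free hG hF hp v hA hB hAB hU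
  exact acyN_zero (mem_miss.2 ⟨mem_br.2 ⟨a, ha, b, hb, rfl⟩, h⟩) (not_self hG _)

/-- START for `HCk`. -/
theorem hck_zero (hG : Geo cross) {W : Finset V} {F : Finset (Sym2 V)} {v : V} (hF : F ⊆ LW W)
    (hp : Plane cross F) (hd : Disc (W.erase v) (F.filter fun e => v ∉ e)) :
    AcyN cross 0 (Un cross W F) := by
  obtain ⟨A, B, hA, hB, hAB, hU, hs⟩ := hd
  obtain ⟨a, ha, b, hb, h⟩ := join_free hG hF hp v hA hB hAB hU
  have hva : v ≠ a := fun h1 => by
    have h2 : a ∈ W.erase v := by rw [← hU]; exact mem_union_left _ ha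
    exact (mem_erase.1 h2).1 h1.symm
  have hvb : v ≠ b := fun h1 => by
    have h2 : b ∈ W.erase v := by rw [← hU]; exact mem_union_right _ hb
    exact (mem_erase.1 h2).1 h1.symm
  refine acyN_zero (e := s(a, b)) (mem_un.2 ⟨?_, h, ?_⟩) (not_self hG _)
  · refine mem_LW.2 ⟨?_, ?_, fun h1 => ?_⟩
    · have h2 : a ∈ W.erase v := by rw [← hU]; exact mem_union_left _ ha
      exact (mem_erase.1 h2).2
    · have h2 : b ∈ W.erase v := by rw [← hU]; exact mem_union_right _ hb
      exact (mem_erase.1 h2).2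
    · exact disjoint_left.1 hAB ha (h1 ▸ hb)
  · intro h1
    refine hs a ha b hb (mem_filter.2 ⟨h1, ?_⟩)
    rw [Sym2.mem_iff]
    rintro (h2 | h2)
    · exact hva h2
    · exact hvb h2

/-- START for `HEk`. -/
theorem hek_zero (hG : Geo cross) {W : Finset V} {F : Finset (Sym2 V)} {v : V} (hF : F ⊆ LW W)
    (hp : Plane cross F) (hd : Disc (W.erase v) (F.filter fun e => v ∉ e)) :
    ∃ A B : Finset V, A.Nonempty ∧ B.Nonempty ∧ Disjoint A B ∧ A ∪ B = W.erase v ∧
      (∀ x ∈ A, ∀ y ∈ B, s(x, y) ∉ F) ∧ AcyN cross 0 (Miss cross (br A B) F) := by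
  obtain ⟨A, B, hA, hB, hAB, hU, hs⟩ := hd
  refine ⟨A, B, hA, hB, hAB, hU, ?_, miss_free hG hF hp v hA hB hAB hU⟩
  intro a ha b hb h1
  refine hs a ha b hb (mem_filter.2 ⟨h1, ?_⟩)
  rw [Sym2.mem_iff]
  rintro (h2 | h2)
  · have h3 : a ∈ W.erase v := by rw [← hU]; exact mem_union_left _ ha
    exact (mem_erase.1 h3).1 h2.symm
  · have h3 : b ∈ W.erase v := by rw [← hU]; exact mem_union_right _ hb
    exact (mem_erase.1 h3).1 h2.symm

end H56N
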